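import Pool.Agent.Run7.h98.CX.Defs

/-!
# The laws for a number with a bound on the powers
-/

set_option autoImplicit false

open Filter

namespace Pool.Agent.Run7.H98.LB

open Pool.Agent.Run7.H98.CX

/-- The consequences of the bound on the powers. -/
theorem abs_laws' {J : Type*} (b c : J → ℕ) (C : J → Prop) (pow : J → ℕ → J) {a : ℝ} (ha : 0 < a)
    (hb : ∀ j n, b (pow j (n + 1)) = b j ^ (n + 1)) (hfull : ∀ j, C j → c j = b j)
    (hzero : ∀ j, b j = 0 → C j)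
    (hbound : ∀ j, ¬ C j → ∀ n : ℕ,
      a * ((n : ℝ) + 2) * (c (pow j (n + 1)) : ℝ) ^ 2 ≤ (b j : ℝ) ^ (2 * (n + 1) + 1)) :
    (∀ j, (∃ ε : ℝ, 0 < ε ∧ ∃ᶠ n in atTop, ε * b (pow j n) ≤ c (pow j n)) → C j) ∧
    ((∀ j, C j) ↔ ∃ f, IsSlow f ∧ ∀ j, f (b j) * b j ≤ c j) := by
  have hkey : ∀ j, ¬ C j → ∀ (n : ℕ) (e : ℝ), 0 ≤ e →
      e * b (pow j (n + 1)) ≤ c (pow j (n + 1)) → a * ((n : ℝ) + 2) * e ^ 2 ≤ b j := by
    intro j hX n e he h4
    have h0 : 0 < b j := Nat.pos_of_ne_zero fun h0 => hX (hzero j h0)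
    have h2 := hbound j hX n
    set r := c (pow j (n + 1)) with hr
    rw [hb] at h4
    push_cast at h4
    have h3 : (0 : ℝ) < b j := by exact_mod_cast h0
    have h5 : (e * (b j : ℝ) ^ (n + 1)) ^ 2 ≤ (r : ℝ) ^ 2 :=
      pow_le_pow_left₀ (by positivity) h4 2
    have h6 : a * ((n : ℝ) + 2) * e ^ 2 * ((b j : ℝ) ^ (n + 1)) ^ 2 ≤
        b j * ((b j : ℝ) ^ (n + 1)) ^ 2 := by
      calc a * ((n : ℝ) + 2) * e ^ 2 * ((b j : ℝ) ^ (n + 1)) ^ 2
          = a * ((n : ℝ) + 2) * (e * (b j : ℝ) ^ (n + 1)) ^ 2 := by ring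
        _ ≤ a * ((n : ℝ) + 2) * (r : ℝ) ^ 2 := by gcongr
        _ ≤ (b j : ℝ) ^ (2 * (n + 1) + 1) := h2
        _ = b j * ((b j : ℝ) ^ (n + 1)) ^ 2 := by ring
    exact le_of_mul_le_mul_right h6 (by positivity)
  refine ⟨fun j => ?_, ⟨fun hX => ?_, ?_⟩⟩
  · rintro ⟨e, he0, hf⟩
    by_contra hX
    obtain ⟨N, hN⟩ := exists_nat_gt ((b j : ℝ) / (a * e ^ 2))
    obtain ⟨n, hn, hn2⟩ := (hf.and_eventually (eventually_ge_atTop (N + 1))).exists
    obtain ⟨n, rfl⟩ := Nat.exists_eq_add_of_le' (le_trans (Nat.le_add_left 1 N) hn2)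
    have h2 := hkey j hX n e he0.le hn
    rw [div_lt_iff₀ (by positivity)] at hN
    have h3 : (N : ℝ) ≤ n := by
      have : N ≤ n := by omega
      exact_mod_cast this
    have h4 : 0 < a * e ^ 2 := by positivity
    nlinarith
  · refine ⟨fun _ => 1, ⟨fun _ _ => one_pos, ?_⟩, fun j => ?_⟩
    · simp only [one_mul]
      exact Real.tendsto_sqrt_atTop.comp Real.tendsto_log_atTop
    · rw [one_mul, hfull _ (hX j)]
  · rintro ⟨f, ⟨hf0, hf⟩, h'⟩ j
    by_contra hX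
    have hb0 : b j ≠ 0 := fun h2 => hX (hzero j h2)
    have hb1 : (1 : ℝ) ≤ b j := by exact_mod_cast Nat.one_le_iff_ne_zero.2 hb0
    have hdim : ∀ n, (b (pow j (n + 1)) : ℝ) = (b j : ℝ) ^ (n + 1) := fun n => by
      rw [hb]
      push_cast
      rfl
    have hy : ∀ n, (1 : ℝ) ≤ b (pow j (n + 1)) := fun n => by
      rw [hdim]
      exact one_le_pow₀ hb1
    have h2 : ∀ n : ℕ, a * ((n : ℝ) + 2) * f (b (pow j (n + 1))) ^ 2 ≤ b j :=
      fun n => hkey j hX n _ (hf0 _ (hy n)).le (h' _)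
    have h3 : (1 : ℝ) < b j := by
      by_contra h3
      have h4 : (b j : ℝ) = 1 := le_antisymm (not_lt.1 h3) hb1
      have h5 : ∀ n, (b (pow j (n + 1)) : ℝ) = 1 := fun n => by
        rw [hdim, h4, one_pow]
      obtain ⟨N, hN⟩ := exists_nat_gt (1 / (a * f 1 ^ 2))
      have h6 := h2 N
      rw [h5, h4] at h6
      have h7 := hf0 1 le_rfl
      rw [div_lt_iff₀ (by positivity)] at hN
      have h8 : 0 < a * f 1 ^ 2 := by positivity
      nlinarith
    have hlog : 0 < Real.log (b j) := Real.log_pos h3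
    obtain ⟨y0, hy0⟩ := eventually_atTop.1 (hf.eventually_gt_atTop
      (√(b j * Real.log (b j) / a)))
    obtain ⟨n, hn⟩ := pow_unbounded_of_one_lt y0 h3
    have h4 : y0 ≤ b (pow j (n + 1)) := by
      rw [hdim]
      refine hn.le.trans ?_
      exact pow_le_pow_right₀ hb1 (Nat.le_succ n)
    have h5 := hy0 _ h4
    have h6 := h2 n
    set F := f (b (pow j (n + 1))) with hF
    have hF0 : 0 < F := hf0 _ (hy n)
    have h7 : Real.log (b (pow j (n + 1))) = (n + 1) * Real.log (b j) := by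
      rw [hdim, Real.log_pow]
      push_cast
      ring
    rw [h7] at h5
    have h8 : b j * Real.log (b j) / a < F ^ 2 * ((n + 1) * Real.log (b j)) := by
      have h9 := pow_lt_pow_left₀ h5 (Real.sqrt_nonneg _) two_ne_zero
      rw [Real.sq_sqrt (by positivity), mul_pow, Real.sq_sqrt (by positivity)] at h9
      exact h9
    have h9 : (b j : ℝ) < a * (F ^ 2 * (n + 1)) := by
      rw [div_lt_iff₀ ha] at h8
      have h10 : (b j : ℝ) * Real.log (b j) < (a * (F ^ 2 * (n + 1))) * Real.log (b j) := by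
        calc (b j : ℝ) * Real.log (b j) < F ^ 2 * ((n + 1) * Real.log (b j)) * a := h8
          _ = _ := by ring
      exact lt_of_mul_lt_mul_right h10 hlog.le
    have h10 : 0 < a * F ^ 2 := by positivity
    nlinarith

/-- The version for properties which are stable under powers. -/
theorem abs_laws {J : Type*} (b c : J → ℕ) (C : J → Prop) (pow : J → ℕ → J) {a : ℝ} (ha : 0 < a)
    (hb : ∀ j n, b (pow j (n + 1)) = b j ^ (n + 1)) (hfull : ∀ j, C j → c j = b j)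
    (hpow : ∀ j n, C j → C (pow j (n + 1))) (hzero : ∀ j, b j = 0 → C j)
    (hbound : ∀ j, ¬ C j → ∀ n : ℕ,
      a * ((n : ℝ) + 2) * (c (pow j (n + 1)) : ℝ) ^ 2 ≤ (b j : ℝ) ^ (2 * (n + 1) + 1)) :
    (∀ j, C j ↔ ∃ ε : ℝ, 0 < ε ∧ ∃ᶠ n in atTop, ε * b (pow j n) ≤ c (pow j n)) ∧
    ((∀ j, C j) ↔ ∃ f, IsSlow f ∧ ∀ j, f (b j) * b j ≤ c j) := by
  have key := abs_laws' b c C pow ha hb hfull hzero hbound
  refine ⟨fun j => ⟨fun hX => ?_, key.1 j⟩, key.2⟩
  refine ⟨1, one_pos, Eventually.frequently ?_⟩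
  filter_upwards [eventually_ge_atTop 1] with n hn
  obtain ⟨n, rfl⟩ := Nat.exists_eq_add_of_le' hn
  rw [one_mul, hfull _ (hpow j n hX)]

end Pool.Agent.Run7.H98.LB
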