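import Pool.Agent.Run7.h98.LB.Num

/-!
# The rank of a direct summand with an action of the Lefschetz algebra
-/

set_option autoImplicit false

open CategoryTheory AlgebraicGeometry Finset TensorProduct Module

universe u v

namespace Pool.Agent.Run7.H98.LB

open Pool.Agent.H914 VarClass Obj WeilCohomology Pool.Agent.N190.CB Pool.Agent.N103.OC
  Pool.Agent.N536.HK Pool.Agent.Run7.H98.CX Pool.Agent.Run7.H98.CR Pool.Agent.H447
  Pool.Agent.H578R3.Mom Pool.Agent.Run7.H634.WZ

variable {k : Type u} [Field k] {𝒱 : VarClass k} {ops : CycleOps 𝒱}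
  {W : WeilCohomology.{u, v} ops} {X Y Z : 𝒱.Obj}

lemma brk {A : Type*} [Ring A] (s D L : A) :
    s * D * L - L * (s * D) = s * (D * L - L * D) + (s * L - L * s) * D := by
  noncomm_ring

/-- The weight operator. -/
noncomputable abbrev wtW (W : WeilCohomology.{u, v} ops) (Y : 𝒱.Obj) :
    Module.End W.K (W.H Y) := wt (W.isInternal Y) Y.dim

/-- The operators `s` with `e s = s` which commute with `L` modulo numerical equivalence. -/
def comm (W : WeilCohomology.{u, v} ops) (Y : 𝒱.Obj) (e L : Module.End W.K (W.H Y)) :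
    Submodule W.K (Module.End W.K (W.H Y)) where
  carrier := {s | s ∈ KOp W Y Y 0 ∧ e * s = s ∧ Nu W Y 1 (s * L - L * s)}
  zero_mem' := ⟨Submodule.zero_mem _, mul_zero _, by
    rw [zero_mul, mul_zero, sub_zero]
    exact NumR.zero kop_opAlg 1⟩
  add_mem' := by
    rintro a b ⟨ha, ha1, ha2⟩ ⟨hb, hb1, hb2⟩
    refine ⟨Submodule.add_mem _ ha hb, by rw [mul_add, ha1, hb1], ?_⟩
    have h1 : (a + b) * L - L * (a + b) = (a * L - L * a) + (b * L - L * b) := by
      rw [add_mul, mul_add]; abel
    rw [h1]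
    exact NumR.add kop_opAlg ha2 hb2
  smul_mem' := by
    rintro r a ⟨ha, ha1, ha2⟩
    refine ⟨Submodule.smul_mem _ _ ha, by rw [mul_smul_comm, ha1], ?_⟩
    rw [smul_mul_assoc, mul_smul_comm, ← smul_sub]
    exact nu_smul r ha2

lemma wt_comm0 {s : Module.End W.K (W.H Y)} (hs : s ∈ KOp W Y Y 0) :
    wtW W Y * s = s * wtW W Y := sc_comm _ hs

lemma wt_comm1 {s : Module.End W.K (W.H Y)} (hs : s ∈ KOp W Y Y 1) :
    wtW W Y * s = s * wtW W Y + (2 : W.K) • s := by
  have h1 := (kop_opAlg.hom hs).wt_comm (W.isInternal Y) Y.dim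
  rw [h1]
  norm_num

/-- **The bound for the rank.** -/
theorem rank_le_lef {L z e T' : Module.End W.K (W.H Y)} (hL : L ∈ KOp W Y Y 1)
    (hz : z ∈ KOp W Y Y (-1)) (hpar : par (W.isInternal Y) ∈ KOp W Y Y 0)
    (hrel : Nu W Y 1 ((L * z - z * L) * L - L * ((L * z - z * L) + 2)))
    (he : e * e = e) (heK : e ∈ KOp W Y Y 0) (hwe : wtW W Y * e ∈ KOp W Y Y 0)
    (hν : Nu W Y 1 (e * L - L * e)) (hT' : T' ∈ KOp W Y Y (-1))
    (hμ : Nu W Y 0 (L * T' - T' * L - wtW W Y * e)) :
    finrank W.K (LinearMap.range e) ≤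
      finrank W.K ((wtW W Y - (L * z - z * L)).maxGenEigenspace 0) := by
  have hT : L * z - z * L ∈ KOp W Y Y 0 :=
    Submodule.sub_mem _ (KOp.cast (kop_opAlg.mul hL hz) (by ring))
      (KOp.cast (kop_opAlg.mul hz hL) (by ring))
  -- the weight operator and the bracket of `e` with `L`
  have hHν : Nu W Y 1 (wtW W Y * (e * L - L * e)) := by
    have hw : Nu W Y 1 (L * e - e * (L * e)) := by
      have h1 : L * e - e * (L * e) = e * (e * L - L * e) - (e * L - L * e) := by
        rw [mul_sub, ← mul_assoc e e L, he]; abel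
      rw [h1]
      exact nu_sub ((NumR.mul_left kop_opAlg heK hν).cast (by ring)) hν
    have hHw : Nu W Y 1 (wtW W Y * (L * e - e * (L * e))) := by
      have h1 : wtW W Y * (L * e - e * (L * e)) = (L * e - e * (L * e)) * (wtW W Y * e) +
          (2 : W.K) • (L * e - e * (L * e)) := by
        rw [wt_comm1 hw.1]
        congr 1
        have h2 : L * e - e * (L * e) = (L * e - e * (L * e)) * e := by
          rw [sub_mul, mul_assoc, he, mul_assoc, mul_assoc, he]
        conv_lhs => rw [h2]
        rw [mul_assoc, wt_comm0 heK]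
      rw [h1]
      exact NumR.add kop_opAlg ((NumR.mul_right kop_opAlg hw hwe).cast (by ring)) (nu_smul 2 hw)
    have h1 : wtW W Y * (e * L - L * e) = (wtW W Y * e) * (e * L - L * e) -
        wtW W Y * (L * e - e * (L * e)) := by
      have h2 : e * (e * L - L * e) = e * L - e * (L * e) := by
        rw [mul_sub, ← mul_assoc e e L, he]
      rw [mul_assoc, h2, ← mul_sub]
      congr 1
      abel
    rw [h1]
    exact nu_sub ((NumR.mul_left kop_opAlg hwe hν).cast (by ring)) hHw
  have hDL : (wtW W Y - (L * z - z * L)) * L - L * (wtW W Y - (L * z - z * L)) =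
      -((L * z - z * L) * L - L * ((L * z - z * L) + 2)) := by
    set T := L * z - z * L
    rw [sub_mul, mul_sub, mul_add, wt_comm1 hL, two_smul, mul_two]
    abel
  apply rank_le_gen (comm W Y e L) he
  · exact ⟨heK, he, hν⟩
  · rintro s ⟨hs, hs1, hs2⟩
    have hsH : s * wtW W Y = (wtW W Y * e) * s := by
      rw [← wt_comm0 hs, mul_assoc, hs1]
    have hsD : s * (wtW W Y - (L * z - z * L)) ∈ KOp W Y Y 0 := by
      rw [mul_sub, hsH]
      exact Submodule.sub_mem _ (kop_mul hwe hs) (kop_mul hs hT)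
    refine ⟨hsD, by rw [← mul_assoc, hs1], ?_⟩
    have h1 : s * (wtW W Y - (L * z - z * L)) * L - L * (s * (wtW W Y - (L * z - z * L))) =
        s * ((wtW W Y - (L * z - z * L)) * L - L * (wtW W Y - (L * z - z * L))) +
        (s * L - L * s) * (wtW W Y - (L * z - z * L)) := by
      exact brk s _ L
    rw [h1, hDL]
    apply NumR.add kop_opAlg
    · exact (NumR.mul_left kop_opAlg hs (NumR.neg kop_opAlg hrel)).cast (by ring)
    · rw [mul_sub]
      apply nu_sub
      · have h2 : (s * L - L * s) * wtW W Y = wtW W Y * (s * L - L * s) -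
            (2 : W.K) • (s * L - L * s) := by
          rw [wt_comm1 hs2.1, add_sub_cancel_right]
        rw [h2]
        refine nu_sub ?_ (nu_smul 2 hs2)
        have h3 : wtW W Y * (s * L - L * s) = (wtW W Y * e) * (s * L - L * s) +
            (wtW W Y * (e * L - L * e)) * s := by
          have h4 : s * L - L * s = e * (s * L - L * s) + (e * L - L * e) * s := by
            rw [mul_sub, ← mul_assoc e s L, hs1, sub_mul, mul_assoc e L s, mul_assoc L e s, hs1]
            abel
          conv_lhs => rw [h4]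
          rw [mul_add, mul_assoc, mul_assoc]
        rw [h3]
        exact NumR.add kop_opAlg ((NumR.mul_left kop_opAlg hwe hs2).cast (by ring))
          ((NumR.mul_right kop_opAlg hHν hs).cast (by ring))
      · exact (NumR.mul_right kop_opAlg hs2 hT).cast (by ring)
  · rintro s ⟨hs, hs1, hs2⟩
    refine ⟨kop_mul hs heK, by rw [← mul_assoc, hs1], ?_⟩
    have h1 : s * e * L - L * (s * e) = s * (e * L - L * e) + (s * L - L * s) * e := brk s e L
    rw [h1]
    exact NumR.add kop_opAlg ((NumR.mul_left kop_opAlg hs hν).cast (by ring))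
      ((NumR.mul_right kop_opAlg hs2 heK).cast (by ring))
  · rintro s ⟨hs, hs1, hs2⟩
    have key : ∀ y ∈ KOp W Y Y (-1), LinearMap.trace W.K (W.H Y) ((L * y - y * L) * s) = 0 := by
      intro y hy
      have h1 := trace_num' kop_opAlg hpar hs2 hy
      rw [mul_sub, map_sub] at h1
      rw [sub_mul, map_sub, mul_assoc L y s, LinearMap.trace_mul_comm, mul_assoc y s L,
        mul_assoc y L s]
      exact h1
    have h2 : LinearMap.trace W.K (W.H Y) (wtW W Y * s) = 0 := by
      have h3 : wtW W Y * s = (L * T' - T' * L) * s - (L * T' - T' * L - wtW W Y * e) * s := by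
        rw [← sub_mul, sub_sub_cancel, mul_assoc, hs1]
      rw [h3, map_sub, key T' hT', trace_num kop_opAlg hpar hμ (KOp.cast hs (by ring)), sub_zero]
    rw [sub_mul, map_sub, h2, key z hz, sub_zero]

/-- The multiplicity of the eigenvalue zero. -/
lemma gen_bound {δ : Module.End W.K (W.H X)} (hδ : ¬ IsNilpotent δ) (n : ℕ) :
    2 * (n + 1 + 1) * finrank W.K ((dl W δ n).maxGenEigenspace 0) ^ 2 ≤
      cohDim W X ^ (2 * (n + 1) + 1) := by
  have h3 := finrank_gen_zero (L := AlgebraicClosure W.K) (dl W δ n)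
  rw [P_dl] at h3
  have h4 : ∃ x ∈ eigM (AlgebraicClosure W.K) δ, x ≠ 1 := by
    by_contra hcon
    push Not at hcon
    exact hδ (nilpotent_of_eig (AlgebraicClosure W.K) _ hcon)
  have h5 := walk_bound (Q := Multiplicative (AlgebraicClosure W.K)) (fun x r hr hx => by
    have h6 : (r : AlgebraicClosure W.K) * Multiplicative.toAdd x = 0 := by
      have h7 := congrArg Multiplicative.toAdd hx
      rwa [toAdd_pow, toAdd_one, nsmul_eq_mul] at h7
    have h7 : (r : AlgebraicClosure W.K) ≠ 0 := by exact_mod_cast hr.ne'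
    exact Multiplicative.toAdd.injective ((mul_eq_zero.1 h6).resolve_left h7)) _ h4
    (Nat.succ_pos n)
  rw [card_eigM] at h5
  refine le_trans ?_ h5
  gcongr

end Pool.Agent.Run7.H98.LB
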