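import Pool.Agent.Run7.h98.CR.Defs
import Pool.Agent.H914R2.KDefs
import Pool.Agent.H447R3.NcDefs

/-!
# Direct summands for which the Lefschetz standard conjecture is true
-/

open CategoryTheory AlgebraicGeometry Filter

set_option autoImplicit false

universe u v

namespace Pool.Agent.Run7.H98.LB

open Pool.Agent.H914 VarClass Obj WeilCohomology Pool.Agent.N103.OC Pool.Agent.Run7.H98.CX
  Pool.Agent.Run7.H98.CR

/-- `e` is an idempotent in `S` all of whose components in the degrees `i` are in `S`; it commutes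
with `L` up to an element of `N'`, and there are `T` in `R` and `ν` in `N` such that
`L T - T L = (i - d) e + ν` on `gr i` for all `i`. -/
def LefschetzSummand {K : Type*} {V : Type*} [Field K] [AddCommGroup V] [Module K V]
    (gr : ℕ → Submodule K V) (d : ℕ) (L : V →ₗ[K] V) (S R N N' : Set (V →ₗ[K] V))
    (e : Module.End K V) : Prop :=
  GradedSummand gr S e ∧ e * L - L * e ∈ N' ∧
    ∃ T ∈ R, ∃ ν ∈ N, ∀ i, ∀ x ∈ gr i, L (T x) - T (L x) = ((i : K) - d) • e x + ν x

variable {k : Type u} [Field k] {𝒱 : VarClass k} {ops : CycleOps 𝒱}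

/-- The operators on the cohomology of `Y` induced by the cycles of codimension `p` on `Y × Y`
(with rational coefficients). -/
def cycOps (W : WeilCohomology.{u, v} ops) (Y : 𝒱.Obj) (p : ℕ) : Set (W.H Y →ₗ[W.K] W.H Y) :=
  {φ | ∃ z, (Y.prod Y).IsCyc p z ∧ W.corr (W.cl (Y.prod Y) z) = φ}

/-- The operators induced by the cycles of codimension `p` on `Y × Y` which are numerically
equivalent to zero. -/
def trivOps (W : WeilCohomology.{u, v} ops) (Y : 𝒱.Obj) (p : ℕ) : Set (W.H Y →ₗ[W.K] W.H Y) :=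
  {φ | ∃ z, (Y.prod Y).IsCyc p z ∧ H447.NumEquiv ops (Y.prod Y) p z 0 ∧
    W.corr (W.cl (Y.prod Y) z) = φ}

/-- `c(Y, E)`, the largest rank of a direct summand `(Y, e)` of the motive of `Y` (modulo
homological equivalence, rational coefficients) for which the Kunneth standard conjecture is true,
and for which the Lefschetz standard conjecture (with the divisor `E`) is true modulo numerical
equivalence. -/
noncomputable def lefDim (W : WeilCohomology.{u, v} ops) (Y : 𝒱.Obj) (E : Y.Cycles) : ℕ :=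
  largestRank (LefschetzSummand (W.gr Y) Y.dim (LinearMap.mulLeft W.K (W.cl Y E))
    (cycOps W Y Y.dim) (cycOps W Y (Y.dim - 1)) (trivOps W Y Y.dim) (trivOps W Y (Y.dim + 1)))

/-- The sum of the pull backs of the divisor `D` under the projections of `X^n` to `X`. -/
noncomputable def sumDivisor (ops : CycleOps 𝒱) {X : 𝒱.Obj} (D : X.Cycles) :
    ∀ n, (pw X n).Cycles
  | 0 => D
  | 1 => D
  | n + 2 => ops.pull (fst (pw X (n + 1)) X) (sumDivisor ops D (n + 1)) +
      ops.pull (snd (pw X (n + 1)) X) D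

/-- `E` is a divisor on `Y` for which hard Lefschetz is true. -/
def Polarized (W : WeilCohomology.{u, v} ops) (Y : 𝒱.Obj) (E : Y.Cycles) : Prop :=
  Y.IsCyc 1 E ∧ HardLefschetz W Y E

/-- The laws for a number `c(Y, E)` and a property `B(Y, E)` of the pairs of a variety `Y` and a
divisor `E` with hard Lefschetz (`b(Y)` is the sum of the Betti numbers, and on `X^n` one takes the
sum of the pull backs of the divisor `D`):
* if `B(X, D)` is false then `c(X^n) ≤ b(X)^n √(b(X) / (2 (n + 1)))` for all `n ≥ 1`;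
* `B(X, D)` is true if and only if there is `ε > 0` such that `c(X^n) ≥ ε b(X^n)` for infinitely
  many `n`;
* `B(X, D)` is true for all `(X, D)` if and only if there is a slow function `f` such that
  `c(Y, E) ≥ f(b(Y)) b(Y)` for all `(Y, E)`. -/
def PolarizedLaws (W : WeilCohomology.{u, v} ops) (c : ∀ Y : 𝒱.Obj, Y.Cycles → ℕ)
    (B : ∀ Y : 𝒱.Obj, Y.Cycles → Prop) : Prop :=
  (∀ X D, Polarized W X D → ¬ B X D → ∀ n ≥ 1,
    2 * (n + 1) * c (pw X n) (sumDivisor ops D n) ^ 2 ≤ cohDim W X ^ (2 * n + 1)) ∧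
  (∀ X D, Polarized W X D → (B X D ↔ ∃ ε : ℝ, 0 < ε ∧
    ∃ᶠ n in atTop, ε * cohDim W (pw X n) ≤ c (pw X n) (sumDivisor ops D n))) ∧
  ((∀ X D, Polarized W X D → B X D) ↔
    ∃ f, IsSlow f ∧ ∀ Y E, Polarized W Y E → f (cohDim W Y) * cohDim W Y ≤ c Y E)

end Pool.Agent.Run7.H98.LB
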