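import Pool.Agent.Run7.h98.LB.Core
import Pool.Agent.Run7.h98.LB.Abs
import Pool.Agent.Run7.h98.LB.Defs
import Pool.Agent.Run7.h98.CR.Laws
import Pool.Agent.Run7.h98.CX.Laws
import Pool.Agent.Run7.h98.HT.A3

/-!
# The laws for the Lefschetz standard conjecture
-/

set_option autoImplicit false

open CategoryTheory AlgebraicGeometry Finset TensorProduct Module Filter

universe u v

namespace Pool.Agent.Run7.H98.LB

open Pool.Agent.H914 VarClass Obj WeilCohomology Pool.Agent.N190.CB Pool.Agent.N103.OC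
  Pool.Agent.N536.HK Pool.Agent.Run7.H98.CX Pool.Agent.Run7.H98.CR Pool.Agent.H447
  Pool.Agent.H578R3.Mom

variable {k : Type u} [Field k] {𝒱 : VarClass k} {ops : CycleOps 𝒱}
  {W : WeilCohomology.{u, v} ops} {X Y Z : 𝒱.Obj}

/-! ### Rational external products -/

lemma rop_ext {d e : ℤ} {a : Module.End W.K (W.H Y)} {b : Module.End W.K (W.H Z)}
    (ha : ROp W Y d a) (hb : ROp W Z e b) : ROp W (Y.prod Z) (d + e) (extOp W a b) := by
  obtain ⟨A, ⟨q, hq, z, hz, hA⟩ | ⟨-, hA⟩, rfl⟩ := ha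
  · obtain ⟨B, ⟨s, hs, w, hw, hB⟩ | ⟨-, hB⟩, rfl⟩ := hb
    · rw [hA W, hB W, extOp_corr _ (W.cl_mem hw)]
      have h1 := rop_corr (W := W) (p := q + s) (d := d + e)
        (by rw [dim_prod]; push_cast; omega)
        (ops.mul_mem (ops.pull_mem (q1 Y Z) hz) (ops.pull_mem (q2 Y Z) hw))
      rw [W.cl_mul, W.cl_pull, W.cl_pull] at h1
      exact h1
    · rw [hB W, extOp_zero_right]
      exact rop_opAlg.zero _
  · rw [hA W, extOp_zero_left]
    exact rop_opAlg.zero _

lemma dl_rop {d : ℤ} {a : Module.End W.K (W.H X)} (ha : ROp W X d a) (n : ℕ) :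
    ROp W (pw X (n + 1)) d (dl W a n) := by
  induction n with
  | zero => exact ha
  | succ n ih =>
    exact rop_opAlg.add (rop_opAlg.cast (rop_ext ih rop_opAlg.one) (by ring))
      (rop_opAlg.cast (rop_ext rop_opAlg.one ha) (by ring))

/-! ### The divisor on the powers -/

lemma sumDivisor_mem {D : X.Cycles} (hD : X.IsCyc 1 D) (n : ℕ) :
    (pw X (n + 1)).IsCyc 1 (sumDivisor ops D (n + 1)) := by
  induction n with
  | zero => exact hD
  | succ n ih => exact SmVar.IsCyc.add (ops.pull_mem _ ih) (ops.pull_mem _ hD)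

lemma dl_L {D : X.Cycles} (hD : X.IsCyc 1 D) (n : ℕ) :
    LinearMap.mulLeft W.K (W.cl (pw X (n + 1)) (sumDivisor ops D (n + 1))) =
      dl W (LinearMap.mulLeft W.K (W.cl X D)) n := by
  induction n with
  | zero => rfl
  | succ n ih =>
    rw [dl_succ, ← ih]
    exact mulLeft_prod (Y := pw X (n + 1)) (Z := X) (D := sumDivisor ops D (n + 1)) (E := D) hD

lemma sl2_pw {f : Module.End W.K (W.H X)} {L : Module.End W.K (W.H X)}
    (t : Sl2 (wtW W X) L f) (n : ℕ) :
    Sl2 (wtW W (pw X (n + 1))) (dl W L n) (dl W f n) := by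
  induction n with
  | zero => exact t
  | succ n ih =>
    have h1 := sl2_prod ih t
    have h2 : wtW W (pw X (n + 1 + 1)) = extSum W (wtW W (pw X (n + 1))) (wtW W X) :=
      wt_prod (pw X (n + 1)) X
    rw [h2]
    exact h1

lemma exists_sl2_W {D : X.Cycles} (hD : X.IsCyc 1 D) (hHL : HardLefschetz W X D) :
    ∃ f, Sl2 (wtW W X) (LinearMap.mulLeft W.K (W.cl X D)) f := by
  obtain ⟨f, t, -, -⟩ := exists_sl2 (W.isInternal X) (mulLeft_isHom hD) W_hbd hHL
  exact ⟨f, t⟩

lemma polarized_pw {D : X.Cycles} (h : Polarized W X D) (n : ℕ) :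
    Polarized W (pw X (n + 1)) (sumDivisor ops D (n + 1)) := by
  obtain ⟨f, t⟩ := exists_sl2_W h.1 h.2
  have h1 := sl2_pw t n
  rw [← dl_L h.1] at h1
  exact ⟨sumDivisor_mem h.1 n, Pool.Agent.Run7.h98.HT.hardLef_of_sl2 (sumDivisor_mem h.1 n) h1⟩

/-- The lowering operator is algebraic. -/
lemma exists_lower {D : X.Cycles} (h : Polarized W X D) (hB : LefschetzB W X D) :
    ∃ f, ROp W X (-1) f ∧ LinearMap.mulLeft W.K (W.cl X D) * f -
      f * LinearMap.mulLeft W.K (W.cl X D) = wtW W X := by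
  have hLR := rop_mulLeft (W := W) h.1
  obtain ⟨Φ, hΦ, hLam⟩ := lefschetzB_iff_rop.1 hB
  obtain ⟨f, t, hf, hfv⟩ := exists_sl2 (W.isInternal X) (mulLeft_isHom h.1) W_hbd h.2
  exact ⟨f, lower_of_lam rop_opAlg (W.isInternal X) W_hbd hLR h.2 hΦ hLam hfv, t.ef⟩

lemma lefschetzB_of_lower {D : X.Cycles} (h : Polarized W X D) {f : Module.End W.K (W.H X)}
    (hf : ROp W X (-1) f) (h1 : LinearMap.mulLeft W.K (W.cl X D) * f -
      f * LinearMap.mulLeft W.K (W.cl X D) = wtW W X) : LefschetzB W X D :=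
  lefschetzB_of_nilp h.1 h.2 hf (by rw [h1, sub_self]; exact IsNilpotent.zero)

lemma dl_lower {L f : Module.End W.K (W.H X)} (h : L * f - f * L = wtW W X) (n : ℕ) :
    dl W L n * dl W f n - dl W f n * dl W L n = wtW W (pw X (n + 1)) := by
  rw [← dl_comm, h, dl_wt]

lemma lefschetzB_pw {D : X.Cycles} (h : Polarized W X D) (hB : LefschetzB W X D) (n : ℕ) :
    LefschetzB W (pw X (n + 1)) (sumDivisor ops D (n + 1)) := by
  obtain ⟨f, hf, h1⟩ := exists_lower h hB
  refine lefschetzB_of_lower (polarized_pw h n) (dl_rop hf n) ?_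
  rw [dl_L h.1]
  exact dl_lower h1 n

/-! ### The trivial direct summand -/

lemma cyc_of_rop_neg {f : Module.End W.K (W.H Y)} (hf : ROp W Y (-1) f) :
    f ∈ cycOps W Y (Y.dim - 1) := by
  obtain ⟨A, ⟨q, hq, z, hz, hA⟩ | ⟨-, hA⟩, rfl⟩ := hf
  · obtain rfl : q = Y.dim - 1 := by omega
    exact ⟨z, hz, (hA W).symm⟩
  · exact ⟨0, SmVar.IsCyc.zero _ _, by rw [map_zero, corr_zero]; exact (hA W).symm⟩

lemma zero_triv (p : ℕ) : (0 : Module.End W.K (W.H Y)) ∈ trivOps W Y p :=
  ⟨0, SmVar.IsCyc.zero _ _, fun _ _ => rfl, by rw [map_zero, corr_zero]⟩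

lemma wt_apply' {i : ℕ} {x : W.H Y} (hx : x ∈ W.gr Y i) :
    wtW W Y x = ((i : W.K) - Y.dim) • x := by
  have h1 : wtW W Y x = ((node Y.dim i : ℚ) : W.K) • x := scal_apply _ _ hx
  rw [h1, node]
  push_cast
  rfl

lemma dg_eq_wt : dg W Y = wtW W Y + (Y.dim : W.K) • 1 := by
  apply gr_ext (W.isInternal Y)
  intro i x hx
  rw [scal_apply _ _ hx, LinearMap.add_apply, wt_apply' hx, LinearMap.smul_apply,
    Module.End.one_apply, ← add_smul, sub_add_cancel]

/-- The property of the operators in the definition of the number `c(Y, E)`. -/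
abbrev IsLef (W : WeilCohomology.{u, v} ops) (Y : 𝒱.Obj) (E : Y.Cycles)
    (e : Module.End W.K (W.H Y)) : Prop :=
  LefschetzSummand (W.gr Y) Y.dim (LinearMap.mulLeft W.K (W.cl Y E))
    (cycOps W Y Y.dim) (cycOps W Y (Y.dim - 1)) (trivOps W Y Y.dim) (trivOps W Y (Y.dim + 1)) e

lemma isLef_one {E : Y.Cycles} (h : Polarized W Y E) (hB : LefschetzB W Y E) :
    IsLef W Y E 1 := by
  obtain ⟨f, hf, h1⟩ := exists_lower h hB
  obtain ⟨lam, hg⟩ := good_rat W
  have hwt : wtW W Y ∈ ratOp W Y := by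
    rw [mem_ratOp, ← h1]
    exact rop_opAlg.sub (rop_opAlg.cast (rop_opAlg.mul (rop_mulLeft h.1) hf) (by ring))
      (rop_opAlg.cast (rop_opAlg.mul hf (rop_mulLeft h.1)) (by ring))
  have hdg : dg W Y ∈ ratOp W Y := by
    rw [dg_eq_wt]
    refine hg.cls.add hwt ?_
    have h2 := hg.cls.smul (Y.dim : ℚ) (hg.cls.one Y)
    rwa [Rat.cast_natCast] at h2
  have hproj : ∀ i, proj (W.isInternal Y) i ∈ ratOp W Y :=
    fun i => hg.proj_mem hdg (by rw [sub_self]; exact IsNilpotent.zero) i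
  refine ⟨hg.graded_iff.2 ⟨mul_one 1, hg.cls.one Y, fun i => by rw [mul_one]; exact hproj i⟩, ?_,
    f, cyc_of_rop_neg hf, 0, zero_triv _, fun i x hx => ?_⟩
  · rw [one_mul, mul_one, sub_self]
    exact zero_triv _
  · have h2 := congrArg (fun F : Module.End W.K (W.H Y) => F x) h1
    simp only [LinearMap.sub_apply, Module.End.mul_apply] at h2
    rw [h2, wt_apply' hx, LinearMap.zero_apply, add_zero, Module.End.one_apply]

lemma isLef_zero (W : WeilCohomology.{u, v} ops) (Y : 𝒱.Obj) (E : Y.Cycles) : IsLef W Y E 0 := by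
  obtain ⟨lam, hg⟩ := good_rat W
  refine ⟨hg.graded_iff.2 ⟨mul_zero 0, hg.cls.zero Y, fun i => by
    rw [mul_zero]; exact hg.cls.zero Y⟩, ?_, 0, ⟨0, SmVar.IsCyc.zero _ _, by
      rw [map_zero, corr_zero]⟩, 0, zero_triv _, fun i x hx => ?_⟩
  · rw [zero_mul, mul_zero, sub_self]
    exact zero_triv _
  · simp only [LinearMap.zero_apply, map_zero, sub_zero, smul_zero, add_zero]

/-! ### The bound -/

lemma nu_of_triv {p : ℕ} (hp : p ≤ 2 * Y.dim) {x : Module.End W.K (W.H Y)}
    (hx : x ∈ trivOps W Y p) {d : ℤ} (hd : (p : ℤ) = Y.dim + d) : Nu W Y d x := by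
  obtain ⟨z, hz, hz0, rfl⟩ := hx
  have h1 := (numEquiv_iff' (W := W) hp hz (SmVar.IsCyc.zero _ _)).1 hz0
  rw [map_zero, corr_zero] at h1
  have h2 := NumR.neg rop_opAlg h1
  have h3 : -((0 : Module.End W.K (W.H Y)) - W.corr (W.cl (Y.prod Y) z)) =
      W.corr (W.cl (Y.prod Y) z) := by
    rw [zero_sub, neg_neg]
  rw [h3] at h2
  exact (nu_of_num h2).cast (by omega)

lemma dim_pw_pos (h : 1 ≤ X.dim) (n : ℕ) : 1 ≤ (pw X (n + 1)).dim := by
  induction n with
  | zero => exact h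
  | succ n ih =>
    have h1 : (pw X (n + 1 + 1)).dim = (pw X (n + 1)).dim + X.dim := dim_prod _ _
    omega

lemma lefschetzB_of_dim {D : X.Cycles} (h : X.dim = 0) : LefschetzB W X D :=
  ⟨0, SmVar.IsCyc.zero _ _, fun i hi a ha _ => ⟨by rw [map_zero, corr_zero]; rfl,
    fun j hj => by omega⟩⟩

theorem lef_bound {D : X.Cycles} (h : Polarized W X D) (hB : ¬ LefschetzB W X D) (n : ℕ)
    {e : Module.End W.K (W.H (pw X (n + 1)))}
    (he : IsLef W (pw X (n + 1)) (sumDivisor ops D (n + 1)) e) :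
    2 * (n + 1 + 1) * finrank W.K (LinearMap.range e) ^ 2 ≤ cohDim W X ^ (2 * (n + 1) + 1) := by
  obtain ⟨lam, hg⟩ := good_rat W
  obtain ⟨hgr, hcom, T', hT', ν, hν, hrel'⟩ := he
  have h1 := hg.graded_iff.1 hgr
  by_cases hpar : par (W.isInternal X) ∈ ratOp W X
  · have hdim : 1 ≤ X.dim := by
      by_contra h0
      exact hB (lefschetzB_of_dim (by omega))
    have hLR := rop_mulLeft (W := W) h.1
    have hOA := rop_opAlg (W := W) (X := X)
    obtain ⟨z, hz, hrel⟩ := exists_sol hOA (W.isInternal X) hLR (mem_ratOp.1 hpar)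
      (fun x y hx hy => rop_str _ (hOA.cast (hOA.mul hx hy) (by ring)))
    have hnil : ¬ IsNilpotent (wtW W X - (LinearMap.mulLeft W.K (W.cl X D) * z -
        z * LinearMap.mulLeft W.K (W.cl X D))) := by
      intro h0
      apply hB
      refine lefschetzB_of_nilp h.1 h.2 hz ?_
      rw [← neg_sub]
      exact h0.neg
    refine le_trans ?_ (gen_bound hnil n)
    have hLn := dl_L (W := W) h.1 n
    rw [hLn] at hcom hrel'
    set L := LinearMap.mulLeft W.K (W.cl X D) with hL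
    have hd := dim_pw_pos hdim n
    have key := rank_le_lef (Y := pw X (n + 1)) (L := dl W L n) (z := dl W z n) (e := e)
      (T' := T') (dl_kop (KOp.ofRop hLR) n) (dl_kop (KOp.ofRop hz) n)
      (par_pw (ratOp_kop hpar) n) (by
        have h2 := dl_nu (nu_of_num hrel) n
        have h3 : (L * z - z * L) * L - L * (L * z - z * L + 2) =
            ((L * z - z * L) * L - L * (L * z - z * L)) - (L + L) := by
          rw [mul_add, mul_two]; abel
        rw [h3, dl_sub, dl_comm, dl_add', dl_comm] at h2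
        rw [mul_add, mul_two]
        have h4 : ∀ a b c : Module.End W.K (W.H (pw X (n + 1))), a - (b + c) = a - b - c :=
          fun a b c => by abel
        rw [h4]
        exact h2) h1.1 (hg.kop h1.2.1) (hg.kp h1.2 _)
      (nu_of_triv (by omega) hcom (by push_cast; ring)) (by
        obtain ⟨w, hw, rfl⟩ := hT'
        exact KOp.gen (by omega) hw) (by
        have h2 : dl W L n * T' - T' * dl W L n - wtW W (pw X (n + 1)) * e = ν := by
          apply gr_ext (W.isInternal _)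
          intro i x hx
          have h3 := hrel' i x hx
          rw [LinearMap.sub_apply, LinearMap.sub_apply, Module.End.mul_apply,
            Module.End.mul_apply, Module.End.mul_apply, wt_apply' (kop_gr (hg.kop h1.2.1) i hx),
            h3, add_sub_cancel_left]
        rw [h2]
        exact nu_of_triv (by omega) hν (by push_cast; ring))
    have h5 : wtW W (pw X (n + 1)) - (dl W L n * dl W z n - dl W z n * dl W L n) =
        dl W (wtW W X - (L * z - z * L)) n := by
      rw [dl_sub, dl_comm, dl_wt]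
    rw [h5] at key
    gcongr
  · refine hg.share_bound (fun hall => hpar ?_) n h1.1 h1.2
    have h2 := hg.sc_mul (a := 1) ⟨hg.cls.one X, fun i => by rw [mul_one]; exact hall i⟩
      (fun i => (-1 : ℚ) ^ i)
    rwa [← par_eq', mul_one] at h2

/-- **The laws for the Lefschetz standard conjecture.** -/
theorem lefschetz_laws (W : WeilCohomology.{u, v} ops) :
    PolarizedLaws W (lefDim W) (LefschetzB W) := by
  have hbound : ∀ (X : 𝒱.Obj) (D : X.Cycles), Polarized W X D → ¬ LefschetzB W X D → ∀ n ≥ 1,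
      2 * (n + 1) * lefDim W (pw X n) (sumDivisor ops D n) ^ 2 ≤ cohDim W X ^ (2 * n + 1) := by
    intro X D h hB n hn
    obtain ⟨n, rfl⟩ := Nat.exists_eq_add_of_le' hn
    obtain ⟨e, he, h1⟩ := exists_largest (isLef_zero W (pw X (n + 1)) (sumDivisor ops D (n + 1)))
    rw [lefDim, h1]
    exact lef_bound h hB n he
  have hfull : ∀ (Y : 𝒱.Obj) (E : Y.Cycles), Polarized W Y E → LefschetzB W Y E →
      lefDim W Y E = cohDim W Y := by
    intro Y E h hB
    apply le_antisymm
    · obtain ⟨e, -, he⟩ := exists_largest (isLef_zero W Y E)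
      rw [lefDim, he]
      exact Submodule.finrank_le _
    · have h2 := le_largest (isLef_one h hB)
      have h3 : LinearMap.range (1 : Module.End W.K (W.H Y)) = ⊤ := LinearMap.range_id
      rwa [h3, finrank_top] at h2
  have hzero : ∀ (X : 𝒱.Obj) (D : X.Cycles), cohDim W X = 0 → LefschetzB W X D := by
    intro X D h0
    have h1 : ∀ x y : W.H X, x = y := fun x y => by
      have := Module.finrank_zero_iff.1 h0
      exact Subsingleton.elim _ _
    exact ⟨0, SmVar.IsCyc.zero _ _, fun i hi a ha _ => ⟨h1 _ _, fun j hj => h1 _ _⟩⟩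
  have key := abs_laws (J := {j : Σ Y : 𝒱.Obj, Y.Cycles // Polarized W j.1 j.2})
    (fun j => cohDim W j.1.1) (fun j => lefDim W j.1.1 j.1.2) (fun j => LefschetzB W j.1.1 j.1.2)
    (fun j n => match n with
      | 0 => j
      | n + 1 => ⟨⟨pw j.1.1 (n + 1), sumDivisor ops j.1.2 (n + 1)⟩, polarized_pw j.2 n⟩)
    (a := 2) two_pos (fun j n => cohDim_pw W j.1.1 n) (fun j hj => hfull _ _ j.2 hj)
    (fun j n hj => lefschetzB_pw j.2 hj n) (fun j hj => hzero _ _ hj)
    (fun j hj n => by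
      have h1 := hbound j.1.1 j.1.2 j.2 hj (n + 1) (Nat.succ_pos n)
      have h2 : (2 : ℝ) * ((n : ℝ) + 1 + 1) *
          (lefDim W (pw j.1.1 (n + 1)) (sumDivisor ops j.1.2 (n + 1)) : ℝ) ^ 2 ≤
            (cohDim W j.1.1 : ℝ) ^ (2 * (n + 1) + 1) := by exact_mod_cast h1
      have h3 : (n : ℝ) + 2 = (n : ℝ) + 1 + 1 := by ring
      rw [h3]
      exact h2)
  refine ⟨hbound, fun X D h => ?_, ?_⟩
  · refine (key.1 ⟨⟨X, D⟩, h⟩).trans ?_
    refine exists_congr fun ε => and_congr_right fun _ => ?_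
    refine frequently_congr ?_
    filter_upwards [eventually_ge_atTop 1] with n hn
    obtain ⟨n, rfl⟩ := Nat.exists_eq_add_of_le' hn
    exact Iff.rfl
  · constructor
    · intro h
      obtain ⟨f, hf, h1⟩ := key.2.1 (fun j => h _ _ j.2)
      exact ⟨f, hf, fun Y E hE => h1 ⟨⟨Y, E⟩, hE⟩⟩
    · rintro ⟨f, hf, h1⟩ X D h
      exact key.2.2 ⟨f, hf, fun j => h1 _ _ j.2⟩ ⟨⟨X, D⟩, h⟩

end Pool.Agent.Run7.H98.LB
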