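import Pool.Agent.Run7.h98.CR.One
import Pool.Agent.H914R2.CPart
import Pool.Agent.H914R2.PProd
import Pool.Agent.H578R3.MomC

/-!
# Numerically trivial operators on the powers of a variety
-/

set_option autoImplicit false

open CategoryTheory AlgebraicGeometry Finset TensorProduct Module

universe u v

namespace Pool.Agent.Run7.H98.LB

open Pool.Agent.H914 VarClass Obj WeilCohomology Pool.Agent.N190.CB Pool.Agent.N103.OC
  Pool.Agent.N536.HK Pool.Agent.Run7.H98.CX Pool.Agent.Run7.H98.CR Pool.Agent.H447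
  Pool.Agent.H578R3.Mom Pool.Agent.Run7.H634.WZ

variable {k : Type u} [Field k] {𝒱 : VarClass k} {ops : CycleOps 𝒱}
  {W : WeilCohomology.{u, v} ops} {X Y Z : 𝒱.Obj}

/-- The combinations of cycles, as a predicate. -/
abbrev KR (W : WeilCohomology.{u, v} ops) (Y : 𝒱.Obj) : ℤ → Module.End W.K (W.H Y) → Prop :=
  fun d y => y ∈ KOp W Y Y d

lemma kop_opAlg : OpAlg (W.gr Y) (KR W Y) := by
  have h := (rop_opAlg (W := W) (X := Y)).kspan
  exact {
    one := mem_KS_iff.1 h.one
    zero := fun d => Submodule.zero_mem _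
    add := fun hy hz => Submodule.add_mem _ hy hz
    smul := fun q {d y} hy => Submodule.smul_mem _ _ hy
    mul := fun hy hz => mem_KS_iff.1 (h.mul (mem_KS_iff.2 hy) (mem_KS_iff.2 hz))
    hom := fun hy => h.hom (mem_KS_iff.2 hy) }

/-- The numerically trivial combinations of cycles. -/
abbrev Nu (W : WeilCohomology.{u, v} ops) (Y : 𝒱.Obj) (d : ℤ) (x : Module.End W.K (W.H Y)) : Prop :=
  NumR (W.isInternal Y) (KR W Y) d x

lemma nu_smul {d : ℤ} {x : Module.End W.K (W.H Y)} (c : W.K) (hx : Nu W Y d x) :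
    Nu W Y d (c • x) :=
  ⟨Submodule.smul_mem _ _ hx.1, fun y hy => by
    rw [smul_mul_assoc, mul_smul_comm, map_smul, hx.2 y hy, smul_zero]⟩

lemma nu_sub {d : ℤ} {x y : Module.End W.K (W.H Y)} (hx : Nu W Y d x) (hy : Nu W Y d y) :
    Nu W Y d (x - y) := by
  rw [sub_eq_add_neg]
  exact NumR.add kop_opAlg hx (NumR.neg kop_opAlg hy)

lemma nu_of_num {d : ℤ} {x : Module.End W.K (W.H Y)}
    (hx : NumR (W.isInternal Y) (ROp W Y) d x) : Nu W Y d x := by
  refine ⟨KOp.ofRop hx.1, fun y hy => ?_⟩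
  have hy' : y ∈ KS (ROp W Y) (-d) := mem_KS_iff.2 hy
  induction hy' using Submodule.span_induction with
  | mem y hy' => exact hx.2 y hy'
  | zero => rw [mul_zero, mul_zero, map_zero]
  | add a b ha' hb' ha hb =>
    rw [mul_add, mul_add, map_add, ha (mem_KS_iff.1 ha'), hb (mem_KS_iff.1 hb'), add_zero]
  | smul r a ha' ha =>
    rw [mul_smul_comm, mul_smul_comm, map_smul, ha (mem_KS_iff.1 ha'), smul_zero]

lemma nu_extL {d : ℤ} {x : Module.End W.K (W.H Y)} (hx : Nu W Y d x) :
    Nu W (Y.prod Z) d (extOp W x 1) := by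
  have h1 : extOp W x 1 ∈ KOp W (Y.prod Z) (Y.prod Z) d :=
    KOp.cast (KOp.ext hx.1 (KOp.id Z)) (by ring)
  refine ⟨h1, fun y hy => ?_⟩
  rw [str_comm (W.isInternal _) (kop_opAlg.hom h1)]
  obtain ⟨T, hT, h2⟩ := exists_ptrace hy (kop_one Z)
  obtain ⟨f, hf⟩ := corr_bijective.2 x
  have hf' : W.corr f = x := hf
  have h3 := h2 f
  rw [hf', str_apply, str_apply] at h3
  rw [h3, ← str_comm (W.isInternal _) (kop_opAlg.hom hx.1)]
  exact hx.2 T (KOp.cast hT (by ring))

lemma nu_extR {d : ℤ} {x : Module.End W.K (W.H Z)} (hx : Nu W Z d x) :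
    Nu W (Y.prod Z) d (extOp W 1 x) := by
  have h1 : extOp W 1 x ∈ KOp W (Y.prod Z) (Y.prod Z) d :=
    KOp.cast (KOp.ext (KOp.id Y) hx.1) (by ring)
  refine ⟨h1, fun y hy => ?_⟩
  rw [str_comm (W.isInternal _) (kop_opAlg.hom h1)]
  obtain ⟨T, hT, h2⟩ := exists_ptrace' hy (kop_one Y)
  have h3 : ∀ x ∈ KOp W Z Z d, str W (Y.prod Z) (y * extOp W 1 x) = str W Z (T * x) := by
    intro x hx
    induction hx using Submodule.span_induction with
    | mem x hx =>
      obtain ⟨p, hp, z, hz, rfl⟩ := hx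
      exact h2 (W.cl_mem hz)
    | zero => rw [extOp_zero_right, mul_zero, mul_zero, map_zero, map_zero]
    | add a b _ _ ha hb => rw [extOp_add_right, mul_add, map_add, ha, hb, mul_add, map_add]
    | smul r a _ ha =>
      rw [extOp_smul_right, mul_smul_comm, map_smul, ha, mul_smul_comm, map_smul]
  have h4 := h3 x hx.1
  rw [str_apply, str_apply] at h4
  rw [h4, ← str_comm (W.isInternal _) (kop_opAlg.hom hx.1)]
  exact hx.2 T (KOp.cast hT (by ring))

/-! ### Sums over the factors -/

lemma dl_succ (δ : Module.End W.K (W.H X)) (n : ℕ) : dl W δ (n + 1) =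
    extL W (pw X (n + 1)) X (dl W δ n) + extR W (pw X (n + 1)) X δ := rfl

lemma dl_sub (a b : Module.End W.K (W.H X)) (n : ℕ) : dl W (a - b) n = dl W a n - dl W b n := by
  induction n with
  | zero => rfl
  | succ n ih => rw [dl_succ, dl_succ, dl_succ, ih, map_sub, map_sub]; abel

lemma dl_add' (a b : Module.End W.K (W.H X)) (n : ℕ) : dl W (a + b) n = dl W a n + dl W b n := by
  induction n with
  | zero => rfl
  | succ n ih => rw [dl_succ, dl_succ, dl_succ, ih, map_add, map_add]; abel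

lemma sum_comm {A B : Module.End W.K (W.H Y)} {a b : Module.End W.K (W.H Z)} :
    extL W Y Z (A * B - B * A) + extR W Y Z (a * b - b * a) =
      (extL W Y Z A + extR W Y Z a) * (extL W Y Z B + extR W Y Z b) -
        (extL W Y Z B + extR W Y Z b) * (extL W Y Z A + extR W Y Z a) := by
  have h1 := (ext_commute (W := W) (Y := Y) (Z := Z) A b).eq
  have h2 := (ext_commute (W := W) (Y := Y) (Z := Z) B a).eq
  rw [map_sub, map_sub, map_mul, map_mul, map_mul, map_mul, add_mul, add_mul, mul_add, mul_add,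
    mul_add, mul_add, h1, h2]
  abel

lemma dl_comm (a b : Module.End W.K (W.H X)) (n : ℕ) :
    dl W (a * b - b * a) n = dl W a n * dl W b n - dl W b n * dl W a n := by
  induction n with
  | zero => rfl
  | succ n ih =>
    rw [dl_succ, ih]
    exact sum_comm (Y := pw X (n + 1)) (Z := X)

lemma dl_kop {d : ℤ} {a : Module.End W.K (W.H X)} (ha : a ∈ KOp W X X d) (n : ℕ) :
    dl W a n ∈ KOp W (pw X (n + 1)) (pw X (n + 1)) d := by
  induction n with
  | zero => exact ha
  | succ n ih =>
    exact Submodule.add_mem _ (KOp.cast (KOp.ext ih (KOp.id X)) (by ring))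
      (KOp.cast (KOp.ext (KOp.id _) ha) (by ring))

lemma dl_nu {d : ℤ} {a : Module.End W.K (W.H X)} (ha : Nu W X d a) (n : ℕ) :
    Nu W (pw X (n + 1)) d (dl W a n) := by
  induction n with
  | zero => exact ha
  | succ n ih => exact NumR.add kop_opAlg (nu_extL ih) (nu_extR ha)

lemma dl_wt (n : ℕ) : dl W (wt (W.isInternal X) X.dim) n =
    wt (W.isInternal (pw X (n + 1))) (pw X (n + 1)).dim := by
  induction n with
  | zero => rfl
  | succ n ih =>
    rw [dl_succ, ih]
    exact (wt_prod (pw X (n + 1)) X).symm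

lemma par_prod : par (W.isInternal (Y.prod Z)) =
    extOp W (par (W.isInternal Y)) (par (W.isInternal Z)) := by
  apply LinearMap.ext
  intro c
  refine W.kunneth_induction (p := fun c => par (W.isInternal (Y.prod Z)) c =
    extOp W (par (W.isInternal Y)) (par (W.isInternal Z)) c) ?_ ?_ c
  · intro a b ha hb
    rw [map_add, map_add, ha, hb]
  · intro i j a ha b hb
    rw [extOp_tmul, par, par, par, scal_apply _ _ (W.mul_mem (W.map_mem _ ha)
      (W.map_mem _ hb)), scal_apply _ _ ha, scal_apply _ _ hb, map_smul, map_smul,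
      smul_mul_assoc, mul_smul_comm, smul_smul, pow_add]

lemma par_pw (h : par (W.isInternal X) ∈ KOp W X X 0) (n : ℕ) :
    par (W.isInternal (pw X (n + 1))) ∈ KOp W (pw X (n + 1)) (pw X (n + 1)) 0 := by
  induction n with
  | zero => exact h
  | succ n ih =>
    have h1 := KOp.cast (KOp.ext ih h) (add_zero 0)
    rwa [← par_prod] at h1

end Pool.Agent.Run7.H98.LB
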